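import Pool.Agent.W819.EN.Stm

/-! LTAIL: tails of the link events. -/

set_option autoImplicit false

namespace Pool.Agent.W108.EN
open H974 Finset
open Pool.Agent.W819.EN

theorem opn_local {T : Finset Edg} {A : Finset Edg → Prop} (hA : ∀ F, A F ↔ A (F ∩ T)) (k : ℕ)
    (F : Finset Edg) : Opn k T A F ↔ Opn k T A (F ∩ T) := by
  have h : ∀ X : Finset Edg, X ⊆ T → (A (F ∪ X) ↔ A (F ∩ T ∪ X)) := by
    intro X hX
    rw [hA (F ∪ X), hA (F ∩ T ∪ X)]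
    have e : (F ∪ X) ∩ T = (F ∩ T ∪ X) ∩ T := by
      ext x
      simp only [mem_inter, mem_union]
      tauto
    rw [e]
  constructor
  · rintro ⟨X, h1, h2, h3⟩
    exact ⟨X, h1, h2, (h X h1).1 h3⟩
  · rintro ⟨X, h1, h2, h3⟩
    exact ⟨X, h1, h2, (h X h1).2 h3⟩

theorem mp_union (g : LSym) (F G : Finset Edg) : g.mp (F ∪ G) = g.mp F ∪ g.mp G := by
  ext e; simp [LSym.mem_mp]

theorem mp_card (g : LSym) (F : Finset Edg) : (g.mp F).card = F.card := by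
  simp [LSym.mp]

theorem mp_inv (g : LSym) (F : Finset Edg) : g.mp (g.inv.mp F) = F := by
  ext e
  rw [LSym.mem_mp, LSym.mem_mp]
  simp [LSym.inv]

theorem opn_mp (g : LSym) {A A' : Finset Edg → Prop} (hA : ∀ F, A (g.mp F) ↔ A' F)
    (T : Finset Edg) (k : ℕ) (F : Finset Edg) :
    Opn k (g.mp T) A (g.mp F) ↔ Opn k T A' F := by
  constructor
  · rintro ⟨X, h1, h2, h3⟩
    refine ⟨g.inv.mp X, ?_, by rw [mp_card]; exact h2, ?_⟩
    · intro e he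
      have h4 : g.φ e ∈ X := by
        rw [LSym.mem_mp] at he
        simpa [LSym.inv] using he
      have h5 := h1 h4
      rw [LSym.mem_mp] at h5
      simpa using h5
    · rw [← hA, mp_union, mp_inv]
      exact h3
  · rintro ⟨X, h1, h2, h3⟩
    refine ⟨g.mp X, LSym.mp_mono g h1, by rw [mp_card]; exact h2, ?_⟩
    rw [← mp_union, hA]
    exact h3

theorem pr_opn_mp (g : LSym) {A A' : Finset Edg → Prop} (hA : ∀ F, A (g.mp F) ↔ A' F)
    (T : Finset Edg) (k : ℕ) :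
    Pr P2 (g.mp T) (fun F => ¬ Opn k (g.mp T) A F) = Pr P2 T (fun F => ¬ Opn k T A' F) := by
  rw [LSym.pr]
  exact Pr_congr fun F _ => not_congr (opn_mp g hA T k F)

theorem pr_LR (a b c d : ℤ) {S : Finset Edg} (hS : LRE a b c d ⊆ S) (k : ℕ) :
    Pr P2 S (fun F => ¬ Opn k (LRE a b c d) (LRc a b c d) F) =
      Pr P2 (LRE 0 (b - a) 0 (d - c))
        (fun F => ¬ Opn k (LRE 0 (b - a) 0 (d - c)) (LRc 0 (b - a) 0 (d - c)) F) := by
  have hA : ∀ F, LRc a b c d F ↔ LRc a b c d (F ∩ LRE a b c d) :=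
    fun F => LRc_local (Finset.Subset.refl _)
  have h0 : Pr P2 S (fun F => ¬ Opn k (LRE a b c d) (LRc a b c d) F) =
      Pr P2 (LRE a b c d) (fun F => ¬ Opn k (LRE a b c d) (LRc a b c d) F) :=
    Pr_local hS (A := fun F => ¬ Opn k (LRE a b c d) (LRc a b c d) F)
      (fun F _ => not_congr (opn_local hA k F))
  rw [h0]
  have h1 : LRE a b c d = (trl a c).mp (LRE 0 (b - a) 0 (d - c)) := by
    rw [trl_LRE]; congr 1 <;> ring
  have h2 : ∀ F, LRc a b c d ((trl a c).mp F) ↔ LRc 0 (b - a) 0 (d - c) F := by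
    intro F
    have := LRc_trl_iff (a := 0) (b := b - a) (c := 0) (d := d - c) (s := a) (t := c) (F := F)
    simpa using this
  rw [h1]
  exact pr_opn_mp (trl a c) h2 _ k

theorem pr_TB (a b c d : ℤ) {S : Finset Edg} (hS : TBE a b c d ⊆ S) (k : ℕ) :
    Pr P2 S (fun F => ¬ Opn k (TBE a b c d) (TBc a b c d) F) =
      Pr P2 (LRE 0 (d - c) 0 (b - a))
        (fun F => ¬ Opn k (LRE 0 (d - c) 0 (b - a)) (LRc 0 (d - c) 0 (b - a)) F) := by
  have hA : ∀ F, TBc a b c d F ↔ TBc a b c d (F ∩ TBE a b c d) :=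
    fun F => TBc_local (Finset.Subset.refl _)
  have h0 : Pr P2 S (fun F => ¬ Opn k (TBE a b c d) (TBc a b c d) F) =
      Pr P2 (TBE a b c d) (fun F => ¬ Opn k (TBE a b c d) (TBc a b c d) F) :=
    Pr_local hS (A := fun F => ¬ Opn k (TBE a b c d) (TBc a b c d) F)
      (fun F _ => not_congr (opn_local hA k F))
  rw [h0]
  have h1 : TBE a b c d = tps.mp (LRE c d a b) := by rw [tps_LRE]
  rw [← pr_LR c d a b (Finset.Subset.refl _), h1]
  exact pr_opn_mp tps (fun F => TBc_tps_iff) _ k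

theorem bound_LR {ρ C : ℝ}
    (hC : ∀ w h : ℤ, 1 ≤ h → 0 < w → w ≤ 8 * h → ∀ k : ℕ,
      Pr P2 (LRE 0 w 0 h) (fun F => ¬ Opn k (LRE 0 w 0 h) (LRc 0 w 0 h) F) ≤ C * ρ ^ k)
    (v : Vtx) (r : ℤ) (a b c d : ℤ) {S : Finset Edg} (hS : bx v r ⊆ S)
    (h1 : v.1 - r ≤ a) (h2 : b ≤ v.1 + r) (h3 : v.2 - r ≤ c) (h4 : d ≤ v.2 + r)
    (h5 : 1 ≤ d - c) (h6 : 0 < b - a) (h7 : b - a ≤ 8 * (d - c)) (k : ℕ) :
    Pr P2 S (fun F => ¬ Opn k (LRE a b c d) (LRc a b c d) F) ≤ C * ρ ^ k := by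
  have hsub : LRE a b c d ⊆ S := by
    refine Finset.Subset.trans ?_ hS
    rintro ⟨x, y, _ | _⟩ h
    · simp only [bx, mem_LRE_false, mem_RE_false] at h ⊢; omega
    · simp only [bx, mem_LRE_true, mem_RE_true] at h ⊢; omega
  rw [pr_LR a b c d hsub k]
  exact hC _ _ h5 h6 h7 k

theorem bound_TB {ρ C : ℝ}
    (hC : ∀ w h : ℤ, 1 ≤ h → 0 < w → w ≤ 8 * h → ∀ k : ℕ,
      Pr P2 (LRE 0 w 0 h) (fun F => ¬ Opn k (LRE 0 w 0 h) (LRc 0 w 0 h) F) ≤ C * ρ ^ k)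
    (v : Vtx) (r : ℤ) (a b c d : ℤ) {S : Finset Edg} (hS : bx v r ⊆ S)
    (h1 : v.1 - r ≤ a) (h2 : b ≤ v.1 + r) (h3 : v.2 - r ≤ c) (h4 : d ≤ v.2 + r)
    (h5 : 1 ≤ b - a) (h6 : 0 < d - c) (h7 : d - c ≤ 8 * (b - a)) (k : ℕ) :
    Pr P2 S (fun F => ¬ Opn k (TBE a b c d) (TBc a b c d) F) ≤ C * ρ ^ k := by
  have hsub : TBE a b c d ⊆ S := by
    refine Finset.Subset.trans ?_ hS
    rintro ⟨x, y, _ | _⟩ h
    · simp only [bx, mem_TBE_false, mem_RE_false] at h ⊢; omega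
    · simp only [bx, mem_TBE_true, mem_RE_true] at h ⊢; omega
  rw [pr_TB a b c d hsub k]
  exact hC _ _ h5 h6 h7 k

theorem okP2 : Ok P2 := fun _ => ⟨by norm_num [P2], by norm_num [P2]⟩

theorem not_and_le (S : Finset Edg) (A B : Finset Edg → Prop) {x y : ℝ}
    (hA : Pr P2 S (fun F => ¬ A F) ≤ x) (hB : Pr P2 S (fun F => ¬ B F) ≤ y) :
    Pr P2 S (fun F => ¬ (A F ∧ B F)) ≤ x + y := by
  refine le_trans (le_of_eq (Pr_congr fun F _ => not_and_or)) ?_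
  refine le_trans (Pr_or_le okP2 S (fun F => ¬ A F) (fun F => ¬ B F)) ?_
  exact add_le_add hA hB

theorem bound_Cir {ρ C : ℝ}
    (hC : ∀ w h : ℤ, 1 ≤ h → 0 < w → w ≤ 8 * h → ∀ k : ℕ,
      Pr P2 (LRE 0 w 0 h) (fun F => ¬ Opn k (LRE 0 w 0 h) (LRc 0 w 0 h) F) ≤ C * ρ ^ k)
    (v : Vtx) (r b : ℤ) {S : Finset Edg} (hS : bx v r ⊆ S) (hb : 1 ≤ b) (hr : 2 * b ≤ r) (k : ℕ) :
    Pr P2 S (fun F => ¬ Cir v b k F) ≤
      (C * ρ ^ k + C * ρ ^ k) + (C * ρ ^ k + C * ρ ^ k) := by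
  refine not_and_le S _ _ (not_and_le S _ _ ?_ ?_) (not_and_le S _ _ ?_ ?_)
  · exact bound_LR hC v r _ _ _ _ hS (by omega) (by omega) (by omega) (by omega) (by omega)
      (by omega) (by omega) k
  · exact bound_LR hC v r _ _ _ _ hS (by omega) (by omega) (by omega) (by omega) (by omega)
      (by omega) (by omega) k
  · exact bound_TB hC v r _ _ _ _ hS (by omega) (by omega) (by omega) (by omega) (by omega)
      (by omega) (by omega) k
  · exact bound_TB hC v r _ _ _ _ hS (by omega) (by omega) (by omega) (by omega) (by omega)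
      (by omega) (by omega) k

theorem t_LTAIL (h : Tail) : LTail := by
  intro ρ hρ
  obtain ⟨C, hC0, hC⟩ := h ρ hρ
  refine ⟨9 * C, by positivity, fun b v S hb hS k => ?_⟩
  have hb' : (1 : ℤ) ≤ b := by exact_mod_cast hb
  have h1 := bound_Cir hC v (8 * b) b hS hb' (by omega) k
  have h2 := bound_Cir hC v (8 * b) (4 * b) hS (by omega) (by omega) k
  have h3 : Pr P2 S (fun F => ¬ Rad v b k F) ≤ C * ρ ^ k :=
    bound_LR hC v (8 * b) _ _ _ _ hS (by omega) (by omega) (by omega) (by omega) (by omega)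
      (by omega) (by omega) k
  have h4 : Pr P2 S (fun F => ¬ Lnk v b k F) ≤
      ((C * ρ ^ k + C * ρ ^ k) + (C * ρ ^ k + C * ρ ^ k)) +
        (((C * ρ ^ k + C * ρ ^ k) + (C * ρ ^ k + C * ρ ^ k)) + C * ρ ^ k) :=
    not_and_le S _ _ h1 (not_and_le S _ _ h2 h3)
  refine h4.trans (le_of_eq ?_)
  ring

end Pool.Agent.W108.EN
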